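import Pool.Agent.W906.MU.Defs

/-!
# Unique games with tags, circuits on literals, faulty negations: definitions

`Con N q` (`Pool/Agent/W906/MU/Defs.lean`) is the type `Fin N × Fin N × Equiv.Perm (Fin q)` of the
constraints (left vertex, right vertex, permutation) and `Sat f g e` says that the labelling `f`, `g`
satisfies the constraint `e`. `Prog inp l` (`Pool/Agent/W906/MU/Circ.lean`) says that `l` is the list
of the functions computed at the gates of a circuit whose input gates are functions in `inp` and
whose other gates apply arbitrary nondecreasing real functions to two earlier gates.
-/

set_option autoImplicit false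

open Finset

namespace Pool.Agent.Q226.UGF

open Pool.Agent.W906.MU

/-- The positions: a constraint together with a tag `j < K`. -/
abbrev Pos (N q K : ℕ) : Type := Con N q × Fin K

variable {N q K : ℕ}

/-- Every constraint occurs at most once (with at most one tag) in the game `x`. -/
def Simple (x : Pos N q K → Bool) : Prop :=
  ∀ e e', x e = true → x e' = true → e.1 = e'.1 → e = e'

open Classical in
/-- The number of the constraints of the game `x`. -/
noncomputable def edges (x : Pos N q K → Bool) : ℕ := (univ.filter fun e => x e = true).card

open Classical in
/-- The number of the constraints of the game `x` which are satisfied by the labelling `f`, `g`. -/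
noncomputable def satisfied (f g : Fin N → Fin q) (x : Pos N q K → Bool) : ℕ :=
  (univ.filter fun e => x e = true ∧ Sat f g e.1).card

open Classical in
/-- The number of the constraints of the game `x` which are violated by the labelling `f`, `g`. -/
noncomputable def violated (f g : Fin N → Fin q) (x : Pos N q K → Bool) : ℕ :=
  (univ.filter fun e => x e = true ∧ ¬ Sat f g e.1).card

/-- The no-instances: exactly `m` constraints, and every labelling satisfies at most `δ * m` of
them (value at most `δ`). -/
def No (m : ℕ) (δ : ℝ) (x : Pos N q K → Bool) : Prop :=
  Simple x ∧ edges x = m ∧ ∀ f g, (satisfied f g x : ℝ) ≤ δ * m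

/-- The yes-instances: at least `m` constraints, and some labelling violates at most `ε * m` of
them (so the value is at least `1 - ε`). -/
def Yes (m : ℕ) (ε : ℝ) (x : Pos N q K → Bool) : Prop :=
  Simple x ∧ m ≤ edges x ∧ ∃ f g, (violated f g x : ℝ) ≤ ε * m

/-- The input gates of circuits on literals: the literal `(e, true)` stands for the bit of the
position `e` and `(e, false)` for its negation; `y` is the vector of the values of the literals.
Constants are also available. -/
def litInputs (E : Type) : Set ((E × Bool → Bool) → ℝ) :=
  {h | (∃ p, h = fun y => if y p = true then 1 else 0) ∨ ∃ c : ℝ, h = fun _ => c}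

/-- The input gates of circuits without negations: only the literals `(e, true)` are available. -/
def posInputs (E : Type) : Set ((E × Bool → Bool) → ℝ) :=
  {h | (∃ e : E, h = fun y => if y (e, true) = true then 1 else 0) ∨ ∃ c : ℝ, h = fun _ => c}

open Classical in
/-- The values of the literals on the input `x` if the negated literals of the positions in `Z` are
stuck at `0`. -/
noncomputable def literals {E : Type} (x : E → Bool) (Z : Set E) : E × Bool → Bool :=
  fun p => if p.2 = true then x p.1 else if p.1 ∈ Z then false else !x p.1

/-- The probability that the value of the gate `out ω` is at least the threshold `τ ω` on the input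
`x`, for random `ω`, without faults. -/
noncomputable def acceptance {E Ω : Type} (out : Ω → (E × Bool → Bool) → ℝ) (τ : Ω → ℝ)
    (x : E → Bool) : ℝ :=
  (Nat.card {ω : Ω // τ ω ≤ out ω (literals x ∅)} : ℝ) / Nat.card Ω

/-- The same probability if moreover each negated literal is stuck at `0` independently with
probability `1 / D`: every position `e` gets a random number `v e` from `0` to `D - 1`, and `0` means
a fault. -/
noncomputable def faultyAcceptance {E Ω : Type} (out : Ω → (E × Bool → Bool) → ℝ) (τ : Ω → ℝ)
    (D : ℕ) (x : E → Bool) : ℝ :=
  (Nat.card {v : Ω × (E → Fin D) // τ v.1 ≤ out v.1 (literals x {e | (v.2 e : ℕ) = 0})} : ℝ) /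
    Nat.card (Ω × (E → Fin D))

end Pool.Agent.Q226.UGF
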