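import Pool.Agent.Q226.UGF.Defs
import Pool.Agent.W906.MU.Final
import Pool.Agent.Y630.TF.Transfer

/-! The lower bound. -/

set_option autoImplicit false

open Finset

namespace Pool.Agent.Q226.UGF

open Pool.Agent.W906.MU Pool.Agent.Y630.TF Pool.Agent.Y630.NW

lemma lit_eq {E : Type} (x : E → Bool) (Z : Set E) : lit x Z = literals x Z := by
  funext p
  unfold lit literals
  by_cases hp : p.2 = true
  · rw [if_pos hp, if_pos hp]
  · rw [if_neg hp, if_neg hp]
    by_cases hZ : p.1 ∈ Z
    · simp [hZ]
    · simp [hZ]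

/-- gates are monotone in the literals -/
lemma prog_mono {E : Type} {l : List ((E × Bool → Bool) → ℝ)} (h : Prog (litInputs E) l) :
    ∀ f ∈ l, ∀ y y' : E × Bool → Bool, y ≤ y' → f y ≤ f y' := by
  induction h with
  | nil => intro f hf; exact absurd hf (by simp)
  | input _ hf ih =>
    intro f' hf' y y' hy
    rcases List.mem_cons.mp hf' with rfl | hf'
    · rcases hf with ⟨p, rfl⟩ | ⟨c, rfl⟩
      · have h1 := hy p
        show (if y p = true then (1 : ℝ) else 0) ≤ if y' p = true then 1 else 0
        by_cases h2 : y p = true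
        · have h3 : y' p = true := by
            have := h1
            rw [h2] at this
            exact Bool.eq_true_of_true_le this
          rw [if_pos h2, if_pos h3]
        · rw [if_neg h2]
          by_cases h3 : y' p = true
          · rw [if_pos h3]; norm_num
          · rw [if_neg h3]
      · exact le_rfl
    · exact ih f' hf' y y' hy
  | gate _ hφ hf hg ih =>
    intro f' hf' y y' hy
    rcases List.mem_cons.mp hf' with rfl | hf'
    · exact hφ _ _ _ _ (ih _ hf y y' hy) (ih _ hg y y' hy)
    · exact ih f' hf' y y' hy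

/-- substitution -/
lemma prog_subst {E I : Type} {inp : Set (I → ℝ)} (σ : I → E × Bool → Bool)
    (h1 : ∀ p, (fun i => if σ i p = true then (1 : ℝ) else 0) ∈ inp)
    (h2 : ∀ c : ℝ, (fun _ => c) ∈ inp)
    {l : List ((E × Bool → Bool) → ℝ)} (h : Prog (litInputs E) l) :
    Prog inp (l.map fun f i => f (σ i)) := by
  induction h with
  | nil => exact Prog.nil
  | input _ hf ih =>
    rw [List.map_cons]
    refine Prog.input ih ?_
    rcases hf with ⟨p, rfl⟩ | ⟨c, rfl⟩
    · exact h1 p
    · exact h2 c
  | gate _ hφ hf hg ih =>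
    rw [List.map_cons]
    exact Prog.gate ih hφ (List.mem_map_of_mem hf) (List.mem_map_of_mem hg)

variable {N q K : ℕ}

open Classical in
/-- the bits of a game without tags -/
noncomputable def enc (I : Game N q) : Con N q → Bool := fun e => decide (e ∈ I)

lemma enc_true {I : Game N q} {e : Con N q} : enc I e = true ↔ e ∈ I := by
  classical
  unfold enc
  rw [decide_eq_true_iff]

/-- the game with the tags `τ` -/
noncomputable abbrev tag [NeZero K] (τ : Con N q → Fin K) (I : Game N q) : Pos N q K → Bool :=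
  host (Function.Embedding.refl _) (fun _ => false) τ (enc I)

lemma tag_true [NeZero K] {τ : Con N q → Fin K} {I : Game N q} {e : Pos N q K} :
    tag τ I e = true ↔ τ e.1 = e.2 ∧ e.1 ∈ I := by
  rw [host_true]
  constructor
  · rintro (h | ⟨x, h1, h2⟩)
    · exact absurd h (by simp)
    · have h3 : (x, τ x) = e := h2
      rw [← h3]
      exact ⟨rfl, enc_true.mp h1⟩
  · rintro ⟨h1, h2⟩
    exact Or.inr ⟨e.1, enc_true.mpr h2, Prod.ext rfl h1⟩

lemma tag_simple [NeZero K] (τ : Con N q → Fin K) (I : Game N q) : Simple (tag τ I) := by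
  intro e e' he he' h
  obtain ⟨h1, -⟩ := tag_true.mp he
  obtain ⟨h1', -⟩ := tag_true.mp he'
  refine Prod.ext h ?_
  rw [← h1, ← h1', h]

open Classical in
lemma tag_count [NeZero K] (τ : Con N q → Fin K) (I : Game N q) (P : Con N q → Prop) :
    (univ.filter fun e : Pos N q K => tag τ I e = true ∧ P e.1).card = (I.filter P).card := by
  symm
  refine Finset.card_bij (fun e _ => (e, τ e)) ?_ ?_ ?_
  · intro e he
    obtain ⟨h1, h2⟩ := Finset.mem_filter.mp he
    rw [Finset.mem_filter]
    exact ⟨Finset.mem_univ _, tag_true.mpr ⟨rfl, h1⟩, h2⟩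
  · intro e _ e' _ h
    exact (Prod.mk.inj h).1
  · intro e he
    obtain ⟨-, h1, h2⟩ := Finset.mem_filter.mp he
    obtain ⟨h3, h4⟩ := tag_true.mp h1
    exact ⟨e.1, Finset.mem_filter.mpr ⟨h4, h2⟩, Prod.ext rfl h3⟩

lemma tag_edges [NeZero K] (τ : Con N q → Fin K) (I : Game N q) : edges (tag τ I) = I.card := by
  classical
  have h := tag_count τ I (fun _ => True)
  unfold edges
  simpa using h

lemma tag_no [NeZero K] {m : ℕ} {δ : ℝ} {I : Game N q} (h : NoI m δ I) (τ : Con N q → Fin K) :
    No m δ (tag τ I) := by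
  classical
  refine ⟨tag_simple τ I, by rw [tag_edges]; exact h.1, fun f g => ?_⟩
  have h1 := h.2 f g
  unfold satisfied
  rw [tag_count τ I (fun e => Sat f g e)]
  convert h1

lemma tag_yes [NeZero K] {m : ℕ} {ε : ℝ} {I : Game N q} (h : YesI m ε I) (τ : Con N q → Fin K) :
    Yes m ε (tag τ I) := by
  classical
  obtain ⟨h1, f, g, h2⟩ := h
  refine ⟨tag_simple τ I, by rw [tag_edges]; exact h1, f, g, ?_⟩
  have h3 := tag_count τ I (fun e => ¬ Sat f g e)
  unfold violated
  refine (le_of_eq ?_).trans h2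
  congr 1
  convert h3

lemma card_con (N q : ℕ) : Fintype.card (Con N q) = N ^ 2 * q.factorial := by
  rw [Fintype.card_prod, Fintype.card_prod, Fintype.card_fin, Fintype.card_perm, Fintype.card_fin]
  ring

/-- few patterns miss a constraint -/
lemma bad_small {D K : ℕ} (hD : 0 < D) {n η : ℝ} (hn : 0 < n) (hη : 0 < η)
    (hK : D * Real.log (2 * n / η) ≤ K) : n * (1 - 1 / (D : ℝ)) ^ K ≤ η / 2 := by
  have hDR : (0 : ℝ) < D := by exact_mod_cast hD
  have h0 : (0 : ℝ) ≤ 1 - 1 / (D : ℝ) := by
    rw [sub_nonneg, div_le_one hDR]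
    exact_mod_cast hD
  have h1 : (1 - 1 / (D : ℝ)) ≤ Real.exp (-(1 / D)) := by
    have := Real.add_one_le_exp (-(1 / (D : ℝ)))
    linarith
  have h2 : (1 - 1 / (D : ℝ)) ^ K ≤ Real.exp (-(K / D)) := by
    calc (1 - 1 / (D : ℝ)) ^ K ≤ Real.exp (-(1 / D)) ^ K := pow_le_pow_left₀ h0 h1 K
      _ = Real.exp (-(K / D)) := by
          rw [← Real.exp_nat_mul]
          congr 1
          ring
  have h3 : Real.log (2 * n / η) ≤ K / D := by
    rw [le_div_iff₀ hDR]
    linarith
  have h4 : Real.exp (-(K / D)) ≤ Real.exp (-(Real.log (2 * n / η))) := by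
    apply Real.exp_le_exp.mpr
    linarith
  have h5 : Real.exp (-(Real.log (2 * n / η))) = η / (2 * n) := by
    rw [Real.exp_neg, Real.exp_log (by positivity), inv_div]
  calc n * (1 - 1 / (D : ℝ)) ^ K ≤ n * (η / (2 * n)) := by
        refine mul_le_mul_of_nonneg_left ((h2.trans h4).trans (le_of_eq h5)) hn.le
    _ = η / 2 := by field_simp

theorem low (q : ℕ) (hq : 1 ≤ q) (δ : ℝ) (hδ : 1 / (q : ℝ) < δ) :
    ∃ N0 : ℕ, ∀ N : ℕ, N0 ≤ N → ∃ m : ℕ, 0 < m ∧
      ∀ (ε η : ℝ) (D K : ℕ), (N : ℝ) ^ (-(1 / 139) : ℝ) ≤ ε → 0 < η → 1 ≤ D → 1 ≤ K →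
      D * Real.log (2 * (N ^ 2 * q.factorial) / η) ≤ K →
      ∀ (Ω : Type) [Finite Ω] [Nonempty Ω] (l : Ω → List ((Pos N q K × Bool → Bool) → ℝ))
        (out : Ω → (Pos N q K × Bool → Bool) → ℝ) (τ : Ω → ℝ),
      (∀ ω, Prog (litInputs (Pos N q K)) (l ω)) → (∀ ω, out ω ∈ l ω) →
      (∀ x, No m δ x → 2 / 3 + η ≤ faultyAcceptance out τ D x) →
      (∀ x, Yes m ε x → acceptance out τ x ≤ 1 / 3) →
      ∃ ω, (2 : ℝ) ^ ((N : ℝ) ^ (1 / 139 : ℝ)) ≤ (l ω).length := by
  classical
  obtain ⟨N0, H⟩ := lower q hq δ hδ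
  refine ⟨max N0 1, fun N hN => ?_⟩
  have hN1 : 1 ≤ N := (le_max_right _ _).trans hN
  have hNR : (0 : ℝ) < N := by exact_mod_cast hN1
  obtain ⟨m, hm, H1⟩ := H N ((le_max_left _ _).trans hN)
  refine ⟨m, hm, ?_⟩
  intro ε η D K hε hη hD hK1 hK Ω _ _ l out τ hl hout hno hyes
  let _ : Fintype Ω := Fintype.ofFinite Ω
  have _ : NeZero K := ⟨by omega⟩
  have hDR : (0 : ℝ) < D := by exact_mod_cast hD
  have hqf : (0 : ℝ) < q.factorial := by exact_mod_cast q.factorial_pos
  have hΩ : (0 : ℝ) < Fintype.card Ω := by exact_mod_cast Fintype.card_pos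
  set l' : Ω × (Con N q → Fin K) → List (Game N q → ℝ) := fun ω =>
    (l ω.1).map fun f I => f (rlit (Function.Embedding.refl (Con N q × Fin K)) (fun _ => false)
      ω.2 (enc I)) with hl'
  have hprog : ∀ ω, Prog (inputs N q) (l' ω) := by
    intro ω
    refine prog_subst (fun I => rlit (Function.Embedding.refl (Con N q × Fin K)) (fun _ => false)
      ω.2 (enc I)) ?_ (fun c => Or.inr ⟨c, rfl⟩) (hl ω.1)
    rintro ⟨e, b⟩
    rcases b with _ | _
    · right
      refine ⟨if (rlit (Function.Embedding.refl (Con N q × Fin K)) (fun _ => false)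
        ω.2 (enc ∅)) (e, false) = true then 1 else 0, ?_⟩
      funext I
      rfl
    · by_cases he : ω.2 e.1 = e.2
      · left
        refine ⟨e.1, ?_⟩
        funext I
        have h1 : rlit (Function.Embedding.refl (Con N q × Fin K)) (fun _ => false)
          ω.2 (enc I) (e, true) = true ↔ e.1 ∈ I := by
          have h0 : rlit (Function.Embedding.refl (Con N q × Fin K)) (fun _ => false)
            ω.2 (enc I) (e, true) = tag ω.2 I e := by
            unfold rlit
            rw [if_pos rfl]
          rw [h0, tag_true]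
          exact ⟨fun h => h.2, fun h => ⟨he, h⟩⟩
        by_cases h2 : e.1 ∈ I
        · rw [if_pos (h1.mpr h2), if_pos h2]
        · rw [if_neg (fun h => h2 (h1.mp h)), if_neg h2]
      · right
        refine ⟨0, ?_⟩
        funext I
        have h1 : ¬ rlit (Function.Embedding.refl (Con N q × Fin K)) (fun _ => false)
          ω.2 (enc I) (e, true) = true := by
          have h0 : rlit (Function.Embedding.refl (Con N q × Fin K)) (fun _ => false)
            ω.2 (enc I) (e, true) = tag ω.2 I e := by
            unfold rlit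
            rw [if_pos rfl]
          rw [h0, tag_true]
          exact fun h => he h.1
        rw [if_neg h1]
  have hmono : ∀ (ω : Ω) (y y' : Pos N q K × Bool → Bool), y ≤ y' → τ ω ≤ out ω y →
      τ ω ≤ out ω y' := fun ω y y' hy h => h.trans (prog_mono (hl ω) _ (hout ω) y y' hy)
  have hbad : (Fintype.card (Con N q) : ℝ) * (1 - 1 / (D : ℝ)) ^ Fintype.card (Fin K) ≤ η / 2 := by
    rw [Fintype.card_fin]
    refine bad_small hD ?_ hη ?_
    · rw [card_con]; push_cast; positivity
    · rw [card_con]
      push_cast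
      exact hK
  have hsep : Separates m δ ε l' := ?_
  · obtain ⟨ω, hω⟩ := H1 ε hε (Ω × (Con N q → Fin K)) l' hprog hsep
    refine ⟨ω.1, ?_⟩
    have h1 : (l' ω).length = (l ω.1).length := List.length_map _
    rw [h1] at hω
    exact hω
  refine ⟨fun ω I => out ω.1
    (rlit (Function.Embedding.refl (Con N q × Fin K)) (fun _ => false) ω.2 (enc I)),
    fun ω => τ ω.1, fun ω => List.mem_map_of_mem (f := fun f I => f (rlit
      (Function.Embedding.refl (Con N q × Fin K)) (fun _ => false) ω.2 (enc I))) (hout ω.1),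
    fun I hI => ?_, fun I hI => ?_⟩
  · have h3 := transfer_yes (Function.Embedding.refl (Con N q × Fin K)) (fun _ => false) hD
      (fun ω y => τ ω ≤ out ω y) hmono (2 / 3) η hbad (enc I) (fun t => by
        have h4 := hno _ (tag_no hI t)
        unfold faultyAcceptance at h4
        have h6 : (Nat.card (Ω × (Pos N q K → Fin D)) : ℝ) =
            Fintype.card Ω * (D : ℝ) ^ Fintype.card (Con N q × Fin K) := by
          rw [Nat.card_eq_fintype_card, Fintype.card_prod, Fintype.card_fun, Fintype.card_fin]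
          push_cast
          ring
        rw [h6, le_div_iff₀ (by positivity)] at h4
        refine h4.trans (le_of_eq ?_)
        congr 1
        rw [← Nat.card_coe_set_eq]
        simp only [lit_eq]
        rfl)
    have h4 : (2 / 3 : ℝ) * Fintype.card (Ω × (Con N q → Fin K)) ≤
        ((univ.filter fun ω : Ω × (Con N q → Fin K) => τ ω.1 ≤ out ω.1
          (rlit (Function.Embedding.refl (Con N q × Fin K)) (fun _ => false) ω.2 (enc I))).card :
            ℝ) := by
      refine le_trans ?_ (h3.trans (le_of_eq ?_))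
      · refine mul_le_mul_of_nonneg_right (by linarith) (Nat.cast_nonneg _)
      · rw [Set.ncard_eq_toFinset_card']
        congr 2
        ext ω
        simp
    have h5 : (2 : ℝ) * Fintype.card (Ω × (Con N q → Fin K)) ≤
        3 * ((univ.filter fun ω : Ω × (Con N q → Fin K) => τ ω.1 ≤ out ω.1
          (rlit (Function.Embedding.refl (Con N q × Fin K)) (fun _ => false) ω.2 (enc I))).card :
            ℝ) := by linarith
    exact_mod_cast h5
  · have h3 := transfer_no (Function.Embedding.refl (Con N q × Fin K)) (fun _ => false)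
      (fun ω y => τ ω ≤ out ω y) hmono (1 / 3) (enc I)
      (fun t => by
        have h4 := hyes _ (tag_yes hI t)
        unfold acceptance at h4
        rw [Nat.card_eq_fintype_card (α := Ω), div_le_iff₀ hΩ] at h4
        refine (le_of_eq ?_).trans h4
        congr 1
        rw [← Nat.card_coe_set_eq]
        simp only [lit_eq]
        rfl)
    have h4 : ((univ.filter fun ω : Ω × (Con N q → Fin K) => τ ω.1 ≤ out ω.1
          (rlit (Function.Embedding.refl (Con N q × Fin K)) (fun _ => false) ω.2 (enc I))).card :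
            ℝ) ≤ 1 / 3 * Fintype.card (Ω × (Con N q → Fin K)) := by
      refine le_trans (le_of_eq ?_) h3
      rw [Set.ncard_eq_toFinset_card']
      congr 2
      ext ω
      simp
    have h5 := Finset.card_filter_add_card_filter_not (s := (univ : Finset (Ω × (Con N q → Fin K))))
      (p := fun ω => τ ω.1 ≤ out ω.1
          (rlit (Function.Embedding.refl (Con N q × Fin K)) (fun _ => false) ω.2 (enc I)))
    rw [Finset.card_univ] at h5
    have h6 : (univ.filter fun ω : Ω × (Con N q → Fin K) => ¬ τ ω.1 ≤ out ω.1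
          (rlit (Function.Embedding.refl (Con N q × Fin K)) (fun _ => false) ω.2 (enc I))) =
        univ.filter fun ω : Ω × (Con N q → Fin K) => out ω.1
          (rlit (Function.Embedding.refl (Con N q × Fin K)) (fun _ => false) ω.2 (enc I)) <
          τ ω.1 := by
      ext ω
      simp
    rw [h6] at h5
    have h7 : ((univ.filter fun ω : Ω × (Con N q → Fin K) => τ ω.1 ≤ out ω.1
          (rlit (Function.Embedding.refl (Con N q × Fin K)) (fun _ => false) ω.2 (enc I))).card :
            ℝ) + ((univ.filter fun ω : Ω × (Con N q → Fin K) => out ω.1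
          (rlit (Function.Embedding.refl (Con N q × Fin K)) (fun _ => false) ω.2 (enc I)) <
          τ ω.1).card : ℝ) = Fintype.card (Ω × (Con N q → Fin K)) := by
      exact_mod_cast h5
    have h8 : (2 : ℝ) * Fintype.card (Ω × (Con N q → Fin K)) ≤
        3 * ((univ.filter fun ω : Ω × (Con N q → Fin K) => out ω.1
          (rlit (Function.Embedding.refl (Con N q × Fin K)) (fun _ => false) ω.2 (enc I)) <
          τ ω.1).card : ℝ) := by linarith
    exact_mod_cast h8

end Pool.Agent.Q226.UGF
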