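import Pool.Agent.Q226.UGF.Defs
import Pool.Agent.W906.MU.Perfect

/-! Circuits without negations. -/

set_option autoImplicit false

open Finset

namespace Pool.Agent.Q226.UGF

open Pool.Agent.W906.MU

variable {N q K : ℕ}

open Classical in
/-- the game without tags -/
noncomputable def unt (y : Pos N q K × Bool → Bool) : Game N q :=
  univ.filter fun c => ∃ j, y ((c, j), true) = true

lemma mem_unt {y : Pos N q K × Bool → Bool} {c : Con N q} :
    c ∈ unt y ↔ ∃ j, y ((c, j), true) = true := by
  classical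
  unfold unt
  simp

lemma ifbit {I : Type} (P : I → Prop) (x : I) [Decidable (P x)] :
    bit P x = if P x then (1 : ℝ) else 0 := by
  unfold bit
  by_cases h : P x
  · rw [if_pos h, if_pos h]
  · rw [if_neg h, if_neg h]

lemma mk_pos (e : Pos N q K) (A : Set ((Pos N q K × Bool → Bool) → ℝ)) :
    Mk (posInputs (Pos N q K)) A {bit fun y => y (e, true) = true} 1 := by
  refine mk_input (Or.inl ⟨e, ?_⟩) A
  funext y
  rw [ifbit]

lemma mk_false (A : Set ((Pos N q K × Bool → Bool) → ℝ)) :
    Mk (posInputs (Pos N q K)) A {bit fun _ => False} 1 := by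
  refine mk_input (Or.inr ⟨0, ?_⟩) A
  funext y
  simp [bit]

lemma mk_true (A : Set ((Pos N q K × Bool → Bool) → ℝ)) :
    Mk (posInputs (Pos N q K)) A {bit fun _ => True} 1 := by
  refine mk_input (Or.inr ⟨1, ?_⟩) A
  funext y
  simp [bit]

/-- the bits of the game without tags -/
lemma mk_unt : Mk (posInputs (Pos N q K)) ∅
    {f | ∃ c : Con N q, f ∈ ({bit fun y => c ∈ unt y} : Set ((Pos N q K × Bool → Bool) → ℝ))}
    (Fintype.card (Con N q) * (1 + (K * 1 + K))) := by
  refine mk_fintype fun c => ?_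
  have h1 : Mk (posInputs (Pos N q K)) ∅ {f | ∃ j : Fin K,
      f ∈ ({bit fun y => y ((c, j), true) = true} : Set ((Pos N q K × Bool → Bool) → ℝ))}
      (Fintype.card (Fin K) * 1) := mk_fintype fun j => mk_pos _ _
  have h2 := mk_ex (inp := posInputs (Pos N q K)) (univ : Finset (Fin K))
    (fun j (y : Pos N q K × Bool → Bool) => y ((c, j), true) = true)
  have h3 : (bit fun y : Pos N q K × Bool → Bool => c ∈ unt y) =
      bit fun y => ∃ j ∈ (univ : Finset (Fin K)), y ((c, j), true) = true :=
    bit_congr fun y => by rw [mem_unt]; simp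
  rw [h3]
  have h4 := (mk_false (N := N) (q := q) (K := K) ∅).comp
    ((h1.mono (Set.empty_subset _) subset_rfl le_rfl).comp (C := {bit fun y => ∃ j ∈
      (univ : Finset (Fin K)), y ((c, j), true) = true}) (d := K) (h2.mono ?_ subset_rfl ?_))
  · refine h4.mono subset_rfl subset_rfl ?_
    rw [Fintype.card_fin]
  · rintro f (rfl | ⟨j, -, rfl⟩)
    · exact Or.inl (Or.inr rfl)
    · exact Or.inr ⟨j, rfl⟩
  · rw [card_univ, Fintype.card_fin]

/-- circuits for games without tags are circuits for games with tags -/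
lemma pull {l : List (Game N q → ℝ)} (h : Prog (inputs N q) l)
    {L : List ((Pos N q K × Bool → Bool) → ℝ)} (hL : Prog (posInputs (Pos N q K)) L)
    (hbits : ∀ c : Con N q, (bit fun y => c ∈ unt y) ∈ L) :
    ∃ L', Prog (posInputs (Pos N q K)) L' ∧ L'.length ≤ L.length + l.length ∧
      (∀ f ∈ L, f ∈ L') ∧ ∀ f ∈ l, (fun y => f (unt y)) ∈ L' := by
  induction h with
  | nil => exact ⟨L, hL, by simp, fun f hf => hf, by simp⟩
  | @input l f _ hf ih =>
    obtain ⟨L', h1, h2, h3, h4⟩ := ih
    rcases hf with ⟨c, rfl⟩ | ⟨c, rfl⟩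
    · refine ⟨L', h1, by rw [List.length_cons]; omega, h3, fun g hg => ?_⟩
      rcases List.mem_cons.mp hg with rfl | hg
      · have h5 := h3 _ (hbits c)
        convert h5 using 1
        funext y
        rw [ifbit]
      · exact h4 g hg
    · refine ⟨(fun _ => c) :: L', Prog.input h1 (Or.inr ⟨c, rfl⟩),
        by rw [List.length_cons, List.length_cons]; omega,
        fun g hg => List.mem_cons_of_mem _ (h3 g hg), fun g hg => ?_⟩
      rcases List.mem_cons.mp hg with rfl | hg
      · exact List.mem_cons_self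
      · exact List.mem_cons_of_mem _ (h4 g hg)
  | @gate l φ f g _ hφ hf hg ih =>
    obtain ⟨L', h1, h2, h3, h4⟩ := ih
    refine ⟨(fun y => φ (f (unt y)) (g (unt y))) :: L', Prog.gate h1 hφ (h4 f hf) (h4 g hg),
      by rw [List.length_cons, List.length_cons]; omega,
      fun g hg => List.mem_cons_of_mem _ (h3 g hg), fun k hk => ?_⟩
    rcases List.mem_cons.mp hk with rfl | hk
    · exact List.mem_cons_self
    · exact List.mem_cons_of_mem _ (h4 k hk)

lemma unt_literals (x : Pos N q K → Bool) (Z : Set (Pos N q K)) (c : Con N q) :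
    c ∈ unt (literals x Z) ↔ ∃ j, x (c, j) = true := by
  rw [mem_unt]
  constructor
  · rintro ⟨j, hj⟩
    refine ⟨j, ?_⟩
    unfold literals at hj
    rwa [if_pos rfl] at hj
  · rintro ⟨j, hj⟩
    refine ⟨j, ?_⟩
    unfold literals
    rwa [if_pos rfl]

lemma satisfiable_iff (x : Pos N q K → Bool) (Z : Set (Pos N q K)) :
    Satisfiable (unt (literals x Z)) ↔ ∃ f g, violated f g x = 0 := by
  classical
  constructor
  · rintro ⟨f, g, h⟩
    refine ⟨f, g, ?_⟩
    unfold violated
    rw [Finset.card_eq_zero, Finset.filter_eq_empty_iff]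
    rintro ⟨c, j⟩ -
    rintro ⟨h1, h2⟩
    exact h2 (h c ((unt_literals x Z c).mpr ⟨j, h1⟩))
  · rintro ⟨f, g, h⟩
    unfold violated at h
    rw [Finset.card_eq_zero, Finset.filter_eq_empty_iff] at h
    refine ⟨f, g, fun c hc => ?_⟩
    obtain ⟨j, hj⟩ := (unt_literals x Z c).mp hc
    by_contra hcon
    exact h (Finset.mem_univ (c, j)) ⟨hj, hcon⟩

/-- completeness one: circuits without negations -/
theorem up (q : ℕ) : ∃ C : ℕ, ∀ N K : ℕ, 1 ≤ K →
    ∃ l : List ((Pos N q K × Bool → Bool) → ℝ), Prog (posInputs (Pos N q K)) l ∧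
      l.length ≤ C * K * (N + 1) ^ 4 ∧ ∃ out ∈ l, ∀ (x : Pos N q K → Bool) (Z : Set (Pos N q K)),
        ((∃ f g, violated f g x = 0) → out (literals x Z) = 0) ∧
        ((∀ f g, violated f g x ≠ 0) → out (literals x Z) = 1) := by
  obtain ⟨C, hC⟩ := perfect q
  refine ⟨3 * q.factorial + C, fun N K hK => ?_⟩
  obtain ⟨l, hl, hlen, f, hf, hfI⟩ := hC N
  obtain ⟨L, g1, -, g3, g4⟩ := (mk_unt (N := N) (q := q) (K := K)) [] Prog.nil (by simp)
  obtain ⟨L', h1, h2, -, h4⟩ := pull hl g1 (fun c => g3 _ ⟨c, rfl⟩)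
  refine ⟨L', h1, ?_, _, h4 f hf, fun x Z => ⟨fun h => ?_, fun h => ?_⟩⟩
  · rw [List.length_nil, zero_add] at g4
    have e1 : Fintype.card (Con N q) = N ^ 2 * q.factorial := by
      rw [Fintype.card_prod, Fintype.card_prod, Fintype.card_fin, Fintype.card_perm,
        Fintype.card_fin]
      ring
    rw [e1] at g4
    have e2 : N ^ 2 ≤ (N + 1) ^ 4 :=
      (Nat.pow_le_pow_left (by omega) 2).trans (Nat.pow_le_pow_right (by omega) (by norm_num))
    have e3 : 1 + (K * 1 + K) ≤ 3 * K := by omega
    calc L'.length ≤ L.length + l.length := h2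
      _ ≤ N ^ 2 * q.factorial * (1 + (K * 1 + K)) + C * (N + 1) ^ 4 := by omega
      _ ≤ (N + 1) ^ 4 * q.factorial * (3 * K) + C * (N + 1) ^ 4 * K := by
          refine Nat.add_le_add (Nat.mul_le_mul (Nat.mul_le_mul_right _ e2) e3) ?_
          exact Nat.le_mul_of_pos_right _ (by omega)
      _ = _ := by ring
  · exact (hfI _).1 ((satisfiable_iff x Z).mpr h)
  · refine (hfI _).2 (fun h5 => ?_)
    obtain ⟨a, b, hab⟩ := (satisfiable_iff x Z).mp h5
    exact h a b hab

/-- some circuits without negations separate -/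
theorem exists_sep (N q K m : ℕ) (δ ε : ℝ) (hm : 0 < m) (h : ε + δ < 1) :
    ∃ l : List ((Pos N q K × Bool → Bool) → ℝ), Prog (posInputs (Pos N q K)) l ∧
      ∃ out ∈ l, ∀ (x : Pos N q K → Bool) (Z : Set (Pos N q K)),
        (No m δ x → out (literals x Z) = 1) ∧ (Yes m ε x → out (literals x Z) = 0) := by
  classical
  -- the sets of positions that contain a no-instance
  set S : Finset (Finset (Pos N q K)) := univ.filter fun s =>
    ∃ x : Pos N q K → Bool, No m δ x ∧ s = univ.filter fun e => x e = true with hS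
  have h1 : Mk (posInputs (Pos N q K)) ∅
      {bit fun y : Pos N q K × Bool → Bool => ∃ s ∈ S, ∀ e ∈ s, y (e, true) = true}
      (1 + (1 + (Fintype.card (Pos N q K) * 1 + (S.card * Fintype.card (Pos N q K) + S.card)))) := by
    have a1 : Mk (posInputs (Pos N q K)) ∅ {f | ∃ e : Pos N q K,
        f ∈ ({bit fun y => y (e, true) = true} : Set ((Pos N q K × Bool → Bool) → ℝ))}
        (Fintype.card (Pos N q K) * 1) := mk_fintype fun e => mk_pos _ _
    have a2 : Mk (posInputs (Pos N q K)) ((∅ ∪ {bit fun _ => False}) ∪ {bit fun _ => True} ∪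
        {f | ∃ e : Pos N q K,
        f ∈ ({bit fun y => y (e, true) = true} : Set ((Pos N q K × Bool → Bool) → ℝ))})
        {f | ∃ s ∈ S, f ∈ ({bit fun y => ∀ e ∈ s, y (e, true) = true} :
          Set ((Pos N q K × Bool → Bool) → ℝ))} (S.card * Fintype.card (Pos N q K)) := by
      refine mk_finset S fun s _ => ?_
      refine (mk_all s (fun e (y : Pos N q K × Bool → Bool) => y (e, true) = true)).mono ?_
        subset_rfl (Finset.card_le_univ s)
      rintro f (rfl | ⟨e, -, rfl⟩)
      · exact Or.inl (Or.inr rfl)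
      · exact Or.inr ⟨e, rfl⟩
    have a3 := mk_ex (inp := posInputs (Pos N q K)) S
      (fun s (y : Pos N q K × Bool → Bool) => ∀ e ∈ s, y (e, true) = true)
    refine (mk_false ∅).comp ((mk_true _).comp ((a1.mono (Set.empty_subset _) subset_rfl
      le_rfl).comp (a2.comp (a3.mono ?_ subset_rfl le_rfl))))
    rintro f (rfl | ⟨s, hs, rfl⟩)
    · exact Or.inl (Or.inl (Or.inl (Or.inr rfl)))
    · exact Or.inr ⟨s, hs, rfl⟩
  obtain ⟨L, g1, -, g3, -⟩ := h1 [] Prog.nil (by simp)
  refine ⟨L, g1, _, g3 _ rfl, fun x Z => ⟨fun hx => ?_, fun hx => ?_⟩⟩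
  · have h2 : ∃ s ∈ S, ∀ e ∈ s, literals x Z (e, true) = true := by
      refine ⟨univ.filter fun e => x e = true, ?_, fun e he => ?_⟩
      · rw [hS, Finset.mem_filter]
        exact ⟨Finset.mem_univ _, x, hx, rfl⟩
      · unfold literals
        rw [if_pos rfl]
        exact (Finset.mem_filter.mp he).2
    simp only [bit]
    rw [if_pos h2]
  · have h2 : ¬ ∃ s ∈ S, ∀ e ∈ s, literals x Z (e, true) = true := by
      rintro ⟨s, hs, hall⟩
      rw [hS, Finset.mem_filter] at hs
      obtain ⟨-, x', hx', rfl⟩ := hs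
      obtain ⟨-, hm', hsat⟩ := hx'
      obtain ⟨-, -, f, g, hv⟩ := hx
      have h3 : ∀ e, x' e = true → x e = true := by
        intro e he
        have h4 := hall e (Finset.mem_filter.mpr ⟨Finset.mem_univ _, he⟩)
        unfold literals at h4
        rwa [if_pos rfl] at h4
      have h5 : violated f g x' ≤ violated f g x := by
        unfold violated
        apply Finset.card_le_card
        intro e he
        obtain ⟨-, h6, h7⟩ := Finset.mem_filter.mp he
        exact Finset.mem_filter.mpr ⟨Finset.mem_univ _, h3 e h6, h7⟩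
      have h8 : satisfied f g x' + violated f g x' = m := by
        rw [← hm']
        unfold satisfied violated edges
        rw [← Finset.card_union_of_disjoint]
        · congr 1
          ext e
          simp only [Finset.mem_union, Finset.mem_filter, Finset.mem_univ, true_and]
          tauto
        · rw [Finset.disjoint_left]
          intro e he he'
          exact (Finset.mem_filter.mp he').2.2 (Finset.mem_filter.mp he).2.2
      have h9 := hsat f g
      have hm0 : (0 : ℝ) < m := by exact_mod_cast hm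
      have h10 : (satisfied f g x' : ℝ) + violated f g x' = m := by exact_mod_cast h8
      have h11 : (violated f g x' : ℝ) ≤ violated f g x := by exact_mod_cast h5
      nlinarith
    simp only [bit]
    rw [if_neg h2]

end Pool.Agent.Q226.UGF
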